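import Mathlib

/-!
# The link recurrence for all symmetric pair interactions

Bergeron's recurrence `L_{v0} = L_{1v} + q L_{0v}` holds with `dinv` replaced by the sum over
`i < j` of any function `w (γ_j - γ_i, π_i, π_j)` with `w (D, a, b) = w (1 - D, b, a)`; in
particular for the `m`-fold (Fuss) version of `dinv`, for every `m`, and it refines to a recurrence
for each fixed level word `γ`.
-/

namespace Pool.Agent.Results.MP_c90a8c_co.FussLinkRecurrence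

open Finset

/-- `area(γ) = ∑ γ_i - #{i : γ_i > 0}` (the subtraction is exact, see `area_add`). -/
def area {n : ℕ} (γ : Fin n → ℕ) : ℕ :=
  (∑ i, γ i) - (univ.filter fun i => 0 < γ i).card

/-- `dinv(γ, π)`. -/
def dinv {n : ℕ} (γ : Fin n → ℕ) (π : Fin n → ℕ+) : ℕ :=
  (univ.filter fun p : Fin n × Fin n => p.1 < p.2 ∧ γ p.1 = γ p.2 ∧ π p.2 < π p.1).card +
  (univ.filter fun p : Fin n × Fin n =>
    p.1 < p.2 ∧ γ p.2 = γ p.1 + 1 ∧ π p.1 < π p.2).card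

/-- The exponent vector of the monomial `x^π = ∏ x_{π_i}`. -/
noncomputable def wt {n : ℕ} (π : Fin n → ℕ+) : ℕ+ →₀ ℕ :=
  ∑ i, Finsupp.single (π i) 1

/-- The `m`-fold dinv: the number of triples `(i, j, k)` with `i < j`, `0 ≤ k < m` and
`γ_j + k = γ_i, π_i > π_j`, or `γ_i < γ_j + k < γ_i + m`, or `γ_j + k = γ_i + m, π_i < π_j`. -/
def dinvM (m : ℕ) {n : ℕ} (γ : Fin n → ℕ) (π : Fin n → ℕ+) : ℕ :=
  (univ.filter fun p : (Fin n × Fin n) × Fin m => p.1.1 < p.1.2 ∧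
    ((γ p.1.2 + p.2 = γ p.1.1 ∧ π p.1.2 < π p.1.1) ∨
      (γ p.1.1 < γ p.1.2 + p.2 ∧ γ p.1.2 + p.2 < γ p.1.1 + m) ∨
      (γ p.1.2 + p.2 = γ p.1.1 + m ∧ π p.1.1 < π p.1.2))).card

/-- The statistic `∑_{i < j} w (γ_j - γ_i, π_i, π_j)` given by a pair interaction `w`. -/
def stat (w : ℤ → ℕ+ → ℕ+ → ℕ) {n : ℕ} (γ : Fin n → ℕ) (π : Fin n → ℕ+) : ℕ :=
  ∑ i, ∑ j, if i < j then w ((γ j : ℤ) - (γ i : ℤ)) (π i) (π j) else 0

/-- The pairs of words `(γ, π)` with `γ_i = 0 ↔ v_i = 1` that contribute the monomial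
`q^(d 0) t^(d 1) x^μ` to the link symmetric function `L s v` of the statistic `s`. -/
def words (s : ∀ n : ℕ, (Fin n → ℕ) → (Fin n → ℕ+) → ℕ) {n : ℕ} (v : Fin n → Fin 2)
    (μ : ℕ+ →₀ ℕ) (d : Fin 2 →₀ ℕ) : Set ((Fin n → ℕ) × (Fin n → ℕ+)) :=
  {p | (∀ i, p.1 i = 0 ↔ v i = 1) ∧ wt p.2 = μ ∧ area p.1 = d 0 ∧ s n p.1 p.2 = d 1}

/-- `L s v = ∑ q^{area γ} t^{s(γ, π)} x^π` over the `(γ, π)` with `γ_i = 0 ↔ v_i = 1`, a formal
power series in `x_1, x_2, …` with coefficients in `ℤ[[q, t]]` (`q = X 0`, `t = X 1`): the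
coefficient of `q^(d 0) t^(d 1) x^μ` is the number of pairs `(γ, π)` contributing this monomial
(a finite number, see `words_finite`). -/
noncomputable def L (s : ∀ n : ℕ, (Fin n → ℕ) → (Fin n → ℕ+) → ℕ) {n : ℕ} (v : Fin n → Fin 2) :
    MvPowerSeries ℕ+ (MvPowerSeries (Fin 2) ℤ) :=
  fun μ d => (Nat.card (words s v μ d) : ℤ)

/-- `G s γ = ∑_π t^{s(γ, π)} x^π`, the part of `L s v` with the fixed level word `γ`: the
coefficient of `x^μ t^e` is the number of `π` with `x^π = x^μ` and `s(γ, π) = e` (finite, see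
`labels_finite`). -/
noncomputable def G (s : ∀ n : ℕ, (Fin n → ℕ) → (Fin n → ℕ+) → ℕ) {n : ℕ} (γ : Fin n → ℕ) :
    MvPowerSeries ℕ+ (PowerSeries ℤ) :=
  fun μ => PowerSeries.mk fun e => (Nat.card {π : Fin n → ℕ+ | wt π = μ ∧ s n γ π = e} : ℤ)

/-- The variable `q` of `ℤ[[q, t]]`. -/
noncomputable def q : MvPowerSeries (Fin 2) ℤ := MvPowerSeries.X 0

lemma card_pos_le {n : ℕ} (γ : Fin n → ℕ) :
    (univ.filter fun i => 0 < γ i).card ≤ ∑ i, γ i := by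
  rw [Finset.card_filter]
  apply Finset.sum_le_sum
  intro i _
  split_ifs <;> omega

lemma area_add {n : ℕ} (γ : Fin n → ℕ) :
    area γ + (univ.filter fun i => 0 < γ i).card = ∑ i, γ i :=
  Nat.sub_add_cancel (card_pos_le γ)

lemma area_add' {n : ℕ} (γ : Fin n → ℕ) :
    area γ + ∑ i, (if 0 < γ i then 1 else 0) = ∑ i, γ i := by
  rw [← area_add γ, Finset.card_filter]

lemma le_area {n : ℕ} (γ : Fin n → ℕ) (i : Fin n) : γ i ≤ area γ + 1 := by
  have h1 := area_add' γ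
  have h2 : area γ = ∑ j, (γ j - (if 0 < γ j then 1 else 0)) := by
    have : ∑ j, γ j = ∑ j, (γ j - (if 0 < γ j then 1 else 0)) +
        ∑ j, (if 0 < γ j then 1 else 0) := by
      rw [← Finset.sum_add_distrib]
      apply Finset.sum_congr rfl
      intro j _
      split_ifs <;> omega
    omega
  have h3 : γ i - (if 0 < γ i then 1 else 0) ≤
      ∑ j, (γ j - (if 0 < γ j then 1 else 0)) :=
    Finset.single_le_sum (f := fun j => γ j - (if 0 < γ j then 1 else 0))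
      (fun _ _ => Nat.zero_le _) (Finset.mem_univ i)
  split_ifs at h3 <;> omega

lemma mem_support_wt {n : ℕ} (π : Fin n → ℕ+) (i : Fin n) : π i ∈ (wt π).support := by
  rw [Finsupp.mem_support_iff, wt, Finsupp.finsetSum_apply]
  have : 1 ≤ ∑ j, (Finsupp.single (π j) 1 : ℕ+ →₀ ℕ) (π i) := by
    have h := Finset.single_le_sum
      (f := fun j => (Finsupp.single (π j) 1 : ℕ+ →₀ ℕ) (π i))
      (fun _ _ => Nat.zero_le _) (Finset.mem_univ i)
    simpa using h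
  omega

lemma labels_finite {n : ℕ} (μ : ℕ+ →₀ ℕ) : {π : Fin n → ℕ+ | wt π = μ}.Finite := by
  have h2 : {f : Fin n → ℕ+ | ∀ i, f i ∈ ((μ.support : Finset ℕ+) : Set ℕ+)}.Finite :=
    Set.Finite.pi' fun _ => Finset.finite_toSet _
  apply h2.subset
  intro π hw i
  simp only [Set.mem_ofPred_eq] at hw
  rw [← hw]
  exact mem_support_wt π i

/-- Every monomial occurs finitely often. -/
lemma words_finite (s : ∀ n : ℕ, (Fin n → ℕ) → (Fin n → ℕ+) → ℕ) {n : ℕ} (v : Fin n → Fin 2)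
    (μ : ℕ+ →₀ ℕ) (d : Fin 2 →₀ ℕ) : (words s v μ d).Finite := by
  have h1 : {f : Fin n → ℕ | ∀ i, f i ∈ Set.Iic (d 0 + 1)}.Finite :=
    Set.Finite.pi' fun _ => Set.finite_Iic _
  apply (h1.prod (labels_finite (n := n) μ)).subset
  rintro ⟨γ, π⟩ ⟨_, hw, ha, _⟩
  refine ⟨?_, hw⟩
  intro i
  simp only [Set.mem_Iic]
  have := le_area γ i
  simp only at ha
  omega

/-- Moving the last letter to the front, and lowering the last level by one. -/
def rot {n : ℕ} (p : (Fin (n + 1) → ℕ) × (Fin (n + 1) → ℕ+)) :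
    (Fin (n + 1) → ℕ) × (Fin (n + 1) → ℕ+) :=
  (Fin.cons (p.1 (Fin.last n) - 1) (Fin.init p.1), Fin.cons (p.2 (Fin.last n)) (Fin.init p.2))

/-- The inverse of `rot`. -/
def unrot {n : ℕ} (p : (Fin (n + 1) → ℕ) × (Fin (n + 1) → ℕ+)) :
    (Fin (n + 1) → ℕ) × (Fin (n + 1) → ℕ+) :=
  (Fin.snoc (Fin.tail p.1) (p.1 0 + 1), Fin.snoc (Fin.tail p.2) (p.2 0))

lemma rot_unrot {n : ℕ} (p : (Fin (n + 1) → ℕ) × (Fin (n + 1) → ℕ+)) :
    rot (unrot p) = p := by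
  rcases p with ⟨γ, π⟩
  simp [rot, unrot, Fin.init_snoc, Fin.cons_self_tail]

lemma unrot_rot {n : ℕ} (p : (Fin (n + 1) → ℕ) × (Fin (n + 1) → ℕ+))
    (h : p.1 (Fin.last n) ≠ 0) : unrot (rot p) = p := by
  rcases p with ⟨γ, π⟩
  simp only at h
  have : γ (Fin.last n) - 1 + 1 = γ (Fin.last n) := by omega
  simp [rot, unrot, Fin.tail_cons, this, Fin.snoc_init_self]

lemma wt_snoc {n : ℕ} (π : Fin n → ℕ+) (b : ℕ+) :
    wt (Fin.snoc π b : Fin (n + 1) → ℕ+) = wt π + Finsupp.single b 1 := by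
  simp only [wt]
  rw [Fin.sum_univ_castSucc]
  simp

lemma wt_cons {n : ℕ} (π : Fin n → ℕ+) (b : ℕ+) :
    wt (Fin.cons b π : Fin (n + 1) → ℕ+) = wt π + Finsupp.single b 1 := by
  simp only [wt]
  rw [Fin.sum_univ_succ]
  simp [add_comm]

lemma area_snoc {n : ℕ} (γ : Fin n → ℕ) (a : ℕ) :
    area (Fin.snoc γ (a + 1) : Fin (n + 1) → ℕ) = area γ + a := by
  have h1 := area_add' (Fin.snoc γ (a + 1) : Fin (n + 1) → ℕ)
  have h2 := area_add' γ
  rw [Fin.sum_univ_castSucc, Fin.sum_univ_castSucc] at h1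
  simp only [Fin.snoc_castSucc, Fin.snoc_last] at h1
  rw [if_pos (Nat.succ_pos _)] at h1
  omega

lemma area_cons {n : ℕ} (γ : Fin n → ℕ) (a : ℕ) :
    area (Fin.cons a γ : Fin (n + 1) → ℕ) + (if 0 < a then 1 else 0) = area γ + a := by
  have h1 := area_add' (Fin.cons a γ : Fin (n + 1) → ℕ)
  have h2 := area_add' γ
  rw [Fin.sum_univ_succ, Fin.sum_univ_succ] at h1
  simp only [Fin.cons_zero, Fin.cons_succ] at h1
  omega

lemma stat_snoc (w : ℤ → ℕ+ → ℕ+ → ℕ) {n : ℕ} (γ : Fin n → ℕ) (π : Fin n → ℕ+) (a : ℕ)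
    (b : ℕ+) :
    stat w (Fin.snoc γ a : Fin (n + 1) → ℕ) (Fin.snoc π b : Fin (n + 1) → ℕ+) =
      stat w γ π + ∑ i, w ((a : ℤ) - (γ i : ℤ)) (π i) b := by
  unfold stat
  simp only [Fin.sum_univ_castSucc, Fin.snoc_castSucc, Fin.snoc_last,
    Fin.castSucc_lt_castSucc_iff, Fin.castSucc_lt_last, lt_self_iff_false,
    if_false, if_true, Finset.sum_add_distrib, not_lt_of_gt (Fin.castSucc_lt_last _),
    Finset.sum_const_zero, add_zero]

lemma stat_cons (w : ℤ → ℕ+ → ℕ+ → ℕ) {n : ℕ} (γ : Fin n → ℕ) (π : Fin n → ℕ+) (a : ℕ)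
    (b : ℕ+) :
    stat w (Fin.cons a γ : Fin (n + 1) → ℕ) (Fin.cons b π : Fin (n + 1) → ℕ+) =
      stat w γ π + ∑ i, w ((γ i : ℤ) - (a : ℤ)) b (π i) := by
  unfold stat
  simp only [Fin.sum_univ_succ, Fin.cons_zero, Fin.cons_succ,
    Fin.succ_lt_succ_iff, Fin.succ_pos, lt_self_iff_false,
    if_false, if_true, Fin.not_lt_zero, zero_add]
  ring

lemma stat_rot (w : ℤ → ℕ+ → ℕ+ → ℕ) (hw : ∀ D a b, w D a b = w (1 - D) b a) {n : ℕ}
    (γ : Fin n → ℕ) (π : Fin n → ℕ+) (a : ℕ) (b : ℕ+) :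
    stat w (Fin.snoc γ (a + 1) : Fin (n + 1) → ℕ) (Fin.snoc π b : Fin (n + 1) → ℕ+) =
      stat w (Fin.cons a γ : Fin (n + 1) → ℕ) (Fin.cons b π : Fin (n + 1) → ℕ+) := by
  rw [stat_snoc, stat_cons]
  congr 1
  refine Finset.sum_congr rfl fun i _ => ?_
  rw [hw]
  congr 1
  push_cast
  ring

/-- The pair interaction of `dinvM m`. -/
def wM (m : ℕ) (D : ℤ) (a b : ℕ+) : ℕ :=
  ∑ k : Fin m, if (D + (k : ℕ) = 0 ∧ b < a) ∨ (0 < D + (k : ℕ) ∧ D + (k : ℕ) < m) ∨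
    (D + (k : ℕ) = m ∧ a < b) then 1 else 0

lemma wM_symm (m : ℕ) (D : ℤ) (a b : ℕ+) : wM m D a b = wM m (1 - D) b a := by
  unfold wM
  rw [← Equiv.sum_comp Fin.revPerm]
  refine Finset.sum_congr rfl fun k _ => ?_
  have h : (((Fin.revPerm k : Fin m) : ℕ) : ℤ) = m - 1 - (k : ℕ) := by
    have hk := k.isLt
    simp only [Fin.revPerm_apply, Fin.val_rev]
    omega
  rw [h]
  congr 1
  apply propext
  constructor
  · rintro (⟨h1, h2⟩ | ⟨h1, h2⟩ | ⟨h1, h2⟩)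
    · exact Or.inr (Or.inr ⟨by omega, h2⟩)
    · exact Or.inr (Or.inl ⟨by omega, by omega⟩)
    · exact Or.inl ⟨by omega, h2⟩
  · rintro (⟨h1, h2⟩ | ⟨h1, h2⟩ | ⟨h1, h2⟩)
    · exact Or.inr (Or.inr ⟨by omega, h2⟩)
    · exact Or.inr (Or.inl ⟨by omega, by omega⟩)
    · exact Or.inl ⟨by omega, h2⟩

lemma dinvM_eq (m : ℕ) {n : ℕ} (γ : Fin n → ℕ) (π : Fin n → ℕ+) :
    dinvM m γ π = stat (wM m) γ π := by
  unfold dinvM stat wM
  rw [Finset.card_filter, ← Finset.univ_product_univ, Finset.sum_product,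
    ← Finset.univ_product_univ, Finset.sum_product]
  refine Finset.sum_congr rfl fun i _ => Finset.sum_congr rfl fun j _ => ?_
  by_cases h : i < j
  · rw [if_pos h]
    refine Finset.sum_congr rfl fun k _ => ?_
    simp only [h, true_and]
    congr 1
    apply propext
    constructor
    · rintro (⟨h1, h2⟩ | ⟨h1, h2⟩ | ⟨h1, h2⟩)
      · exact Or.inl ⟨by omega, h2⟩
      · exact Or.inr (Or.inl ⟨by omega, by omega⟩)
      · exact Or.inr (Or.inr ⟨by omega, h2⟩)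
    · rintro (⟨h1, h2⟩ | ⟨h1, h2⟩ | ⟨h1, h2⟩)
      · exact Or.inl ⟨by omega, h2⟩
      · exact Or.inr (Or.inl ⟨by omega, by omega⟩)
      · exact Or.inr (Or.inr ⟨by omega, h2⟩)
  · simp [h]

lemma dinvM_one {n : ℕ} (γ : Fin n → ℕ) (π : Fin n → ℕ+) : dinvM 1 γ π = dinv γ π := by
  unfold dinvM dinv
  rw [Finset.card_filter, Finset.card_filter, Finset.card_filter, ← Finset.univ_product_univ,
    Finset.sum_product, ← Finset.sum_add_distrib]
  refine Finset.sum_congr rfl fun p _ => ?_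
  rw [Fin.sum_univ_one]
  simp only [Fin.val_zero, add_zero]
  by_cases h : p.1 < p.2
  · simp only [h, true_and]
    have hm : ¬ (γ p.1 < γ p.2 ∧ γ p.2 < γ p.1 + 1) := by omega
    by_cases h1 : γ p.1 = γ p.2
    · have h2 : ¬ (γ p.2 = γ p.1 + 1) := by omega
      simp [h1]
    · have h1' : ¬ (γ p.2 = γ p.1) := fun h => h1 h.symm
      simp only [hm, h1, h1', false_and, false_or, if_false, zero_add]
  · simp [h]

lemma wt_unrot {n : ℕ} (p : (Fin (n + 1) → ℕ) × (Fin (n + 1) → ℕ+)) :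
    wt (unrot p).2 = wt p.2 := by
  rcases p with ⟨γ, π⟩
  rw [← Fin.cons_self_tail π]
  simp only [unrot, Fin.tail_cons, Fin.cons_zero, wt_snoc, wt_cons]

lemma area_unrot {n : ℕ} (p : (Fin (n + 1) → ℕ) × (Fin (n + 1) → ℕ+)) :
    area (unrot p).1 = area p.1 + if 0 < p.1 0 then 1 else 0 := by
  rcases p with ⟨γ, π⟩
  rw [← Fin.cons_self_tail γ]
  simp only [unrot, Fin.tail_cons, Fin.cons_zero, area_snoc, area_cons]

/-- The words of type `v0` are, by rotation, the words of type `1v` and those of type `0v` with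
one `q` less. -/
lemma mem_words_snoc (s : ∀ n : ℕ, (Fin n → ℕ) → (Fin n → ℕ+) → ℕ)
    (hs : ∀ (n : ℕ) (p : (Fin (n + 1) → ℕ) × (Fin (n + 1) → ℕ+)),
      s (n + 1) (unrot p).1 (unrot p).2 = s (n + 1) p.1 p.2)
    {n : ℕ} (v : Fin n → Fin 2) (m : ℕ+ →₀ ℕ) (d : Fin 2 →₀ ℕ)
    (p : (Fin (n + 1) → ℕ) × (Fin (n + 1) → ℕ+)) :
    unrot p ∈ words s (Fin.snoc v 0 : Fin (n + 1) → Fin 2) m d ↔
      (∀ i : Fin n, p.1 i.succ = 0 ↔ v i = 1) ∧ wt p.2 = m ∧
        (area p.1 + if 0 < p.1 0 then 1 else 0) = d 0 ∧ s (n + 1) p.1 p.2 = d 1 := by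
  have h1 : (∀ i : Fin (n + 1), (unrot p).1 i = 0 ↔
      (Fin.snoc v 0 : Fin (n + 1) → Fin 2) i = 1) ↔ (∀ i : Fin n, p.1 i.succ = 0 ↔ v i = 1) := by
    rw [Fin.forall_fin_succ']
    simp [unrot, Fin.tail]
  simp only [words, Set.mem_ofPred_eq]
  rw [h1, wt_unrot, area_unrot, hs]

lemma card_words_snoc (s : ∀ n : ℕ, (Fin n → ℕ) → (Fin n → ℕ+) → ℕ)
    (hs : ∀ (n : ℕ) (p : (Fin (n + 1) → ℕ) × (Fin (n + 1) → ℕ+)),
      s (n + 1) (unrot p).1 (unrot p).2 = s (n + 1) p.1 p.2)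
    {n : ℕ} (v : Fin n → Fin 2) (m : ℕ+ →₀ ℕ) (d : Fin 2 →₀ ℕ) :
    Nat.card (words s (Fin.snoc v 0 : Fin (n + 1) → Fin 2) m d) =
      Nat.card (words s (Fin.cons 1 v : Fin (n + 1) → Fin 2) m d) +
      (if Finsupp.single 0 1 ≤ d then
        Nat.card (words s (Fin.cons 0 v : Fin (n + 1) → Fin 2) m (d - Finsupp.single 0 1)) else 0) := by
  have hinj : Function.Injective
      (unrot : (Fin (n + 1) → ℕ) × (Fin (n + 1) → ℕ+) → _) :=
    Function.LeftInverse.injective (g := rot) rot_unrot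
  have himg : words s (Fin.snoc v 0 : Fin (n + 1) → Fin 2) m d =
      unrot '' {p | unrot p ∈ words s (Fin.snoc v 0 : Fin (n + 1) → Fin 2) m d} := by
    ext p
    constructor
    · intro hp
      have hlast : p.1 (Fin.last n) ≠ 0 := by
        intro h
        have := (hp.1 (Fin.last n)).1 h
        simp at this
      refine ⟨rot p, ?_, unrot_rot p hlast⟩
      simp only [Set.mem_ofPred_eq]
      rw [unrot_rot p hlast]
      exact hp
    · rintro ⟨p', hp', rfl⟩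
      exact hp'
  have hA : words s (Fin.cons 1 v : Fin (n + 1) → Fin 2) m d =
      {p | unrot p ∈ words s (Fin.snoc v 0 : Fin (n + 1) → Fin 2) m d ∧ p.1 0 = 0} := by
    ext p
    simp only [Set.mem_ofPred_eq]
    rw [mem_words_snoc s hs]
    simp only [words, Set.mem_ofPred_eq]
    rw [Fin.forall_fin_succ]
    simp only [Fin.cons_zero, Fin.cons_succ, iff_true]
    constructor
    · rintro ⟨⟨h0, h1⟩, h2, h3, h4⟩
      refine ⟨⟨h1, h2, ?_, h4⟩, h0⟩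
      rw [h0]
      simpa using h3
    · rintro ⟨⟨h1, h2, h3, h4⟩, h0⟩
      refine ⟨⟨h0, h1⟩, h2, ?_, h4⟩
      rw [h0] at h3
      simpa using h3
  have hB : {p | unrot p ∈ words s (Fin.snoc v 0 : Fin (n + 1) → Fin 2) m d ∧ p.1 0 ≠ 0} =
      if Finsupp.single 0 1 ≤ d then
        words s (Fin.cons 0 v : Fin (n + 1) → Fin 2) m (d - Finsupp.single 0 1) else ∅ := by
    ext p
    simp only [Set.mem_ofPred_eq]
    rw [mem_words_snoc s hs]
    have hle : Finsupp.single 0 1 ≤ d ↔ 1 ≤ d 0 := by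
      rw [Finsupp.single_le_iff]
    by_cases h : (Finsupp.single 0 1 : Fin 2 →₀ ℕ) ≤ d
    · rw [if_pos h]
      rw [hle] at h
      simp only [words, Set.mem_ofPred_eq]
      rw [Fin.forall_fin_succ (P := fun i => p.1 i = 0 ↔
        (Fin.cons 0 v : Fin (n + 1) → Fin 2) i = 1)]
      simp only [Fin.cons_zero, Fin.cons_succ, Finsupp.tsub_apply, Finsupp.single_eq_same]
      have h10 : (Finsupp.single (0 : Fin 2) 1 : Fin 2 →₀ ℕ) 1 = 0 := by simp
      rw [h10, Nat.sub_zero]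
      have h01 : ¬ ((0 : Fin 2) = 1) := by decide
      simp only [h01, iff_false]
      constructor
      · rintro ⟨⟨h1, h2, h3, h4⟩, h0⟩
        refine ⟨⟨h0, h1⟩, h2, ?_, h4⟩
        rw [if_pos (Nat.pos_of_ne_zero h0)] at h3
        omega
      · rintro ⟨⟨h0, h1⟩, h2, h3, h4⟩
        refine ⟨⟨h1, h2, ?_, h4⟩, h0⟩
        rw [if_pos (Nat.pos_of_ne_zero h0)]
        omega
    · rw [if_neg h]
      rw [hle] at h
      simp only [Set.mem_empty_iff_false, iff_false]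
      rintro ⟨⟨h1, h2, h3, h4⟩, h0⟩
      rw [if_pos (Nat.pos_of_ne_zero h0)] at h3
      omega
  have hsplit : {p | unrot p ∈ words s (Fin.snoc v 0 : Fin (n + 1) → Fin 2) m d} =
      {p | unrot p ∈ words s (Fin.snoc v 0 : Fin (n + 1) → Fin 2) m d ∧ p.1 0 = 0} ∪
      {p | unrot p ∈ words s (Fin.snoc v 0 : Fin (n + 1) → Fin 2) m d ∧ p.1 0 ≠ 0} := by
    ext p
    simp only [Set.mem_ofPred_eq, Set.mem_union]
    tauto
  have hdisj : Disjoint
      {p | unrot p ∈ words s (Fin.snoc v 0 : Fin (n + 1) → Fin 2) m d ∧ p.1 0 = 0}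
      {p | unrot p ∈ words s (Fin.snoc v 0 : Fin (n + 1) → Fin 2) m d ∧ p.1 0 ≠ 0} := by
    rw [Set.disjoint_left]
    rintro p ⟨_, h⟩ ⟨_, h'⟩
    exact h' h
  have hfA : {p | unrot p ∈ words s (Fin.snoc v 0 : Fin (n + 1) → Fin 2) m d ∧
      p.1 0 = 0}.Finite := by
    rw [← hA]
    exact words_finite _ _ _ _
  have hfB : {p | unrot p ∈ words s (Fin.snoc v 0 : Fin (n + 1) → Fin 2) m d ∧
      p.1 0 ≠ 0}.Finite := by
    rw [hB]
    split_ifs
    · exact words_finite _ _ _ _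
    · exact Set.finite_empty
  rw [Nat.card_coe_set_eq, himg, Set.ncard_image_of_injective _ hinj, hsplit,
    Set.ncard_union_eq hdisj hfA hfB, ← hA, hB, Nat.card_coe_set_eq]
  congr 1
  split_ifs
  · rw [Nat.card_coe_set_eq]
  · simp

lemma main (s : ∀ n : ℕ, (Fin n → ℕ) → (Fin n → ℕ+) → ℕ)
    (hs : ∀ (n : ℕ) (p : (Fin (n + 1) → ℕ) × (Fin (n + 1) → ℕ+)),
      s (n + 1) (unrot p).1 (unrot p).2 = s (n + 1) p.1 p.2) (n : ℕ) (v : Fin n → Fin 2) :
    L s (Fin.snoc v 0 : Fin (n + 1) → Fin 2) =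
      L s (Fin.cons 1 v : Fin (n + 1) → Fin 2) +
        q • L s (Fin.cons 0 v : Fin (n + 1) → Fin 2) := by
  ext m d
  rw [map_add, map_add, MvPowerSeries.coeff_smul, q, MvPowerSeries.X,
    MvPowerSeries.coeff_monomial_mul]
  have h := card_words_snoc s hs v m d
  simp only [one_mul]
  change (Nat.card (words s (Fin.snoc v 0 : Fin (n + 1) → Fin 2) m d) : ℤ) =
    (Nat.card (words s (Fin.cons 1 v : Fin (n + 1) → Fin 2) m d) : ℤ) +
      (if Finsupp.single 0 1 ≤ d then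
        (Nat.card (words s (Fin.cons 0 v : Fin (n + 1) → Fin 2) m (d - Finsupp.single 0 1)) : ℤ)
        else 0)
  rw [h]
  push_cast
  split_ifs <;> simp

lemma stat_unrot (w : ℤ → ℕ+ → ℕ+ → ℕ) (hw : ∀ D a b, w D a b = w (1 - D) b a) (n : ℕ)
    (p : (Fin (n + 1) → ℕ) × (Fin (n + 1) → ℕ+)) :
    stat w (unrot p).1 (unrot p).2 = stat w p.1 p.2 := by
  rcases p with ⟨γ, π⟩
  rw [← Fin.cons_self_tail π, ← Fin.cons_self_tail γ]
  simp only [unrot, Fin.tail_cons, Fin.cons_zero]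
  exact stat_rot w hw _ _ _ _

lemma G_rot (w : ℤ → ℕ+ → ℕ+ → ℕ) (hw : ∀ D a b, w D a b = w (1 - D) b a) (n : ℕ)
    (γ : Fin n → ℕ) (a : ℕ) :
    G (fun _ => stat w) (Fin.snoc γ (a + 1) : Fin (n + 1) → ℕ) =
      G (fun _ => stat w) (Fin.cons a γ : Fin (n + 1) → ℕ) := by
  funext μ
  unfold G
  refine congrArg PowerSeries.mk (funext fun e => ?_)
  congr 1
  refine Nat.card_congr
    { toFun := fun π => ⟨Fin.cons (π.1 (Fin.last n)) (Fin.init π.1), ?_⟩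
      invFun := fun π => ⟨Fin.snoc (Fin.tail π.1) (π.1 0), ?_⟩
      left_inv := fun π => Subtype.ext ?_
      right_inv := fun π => Subtype.ext ?_ }
  · obtain ⟨π, h1, h2⟩ := π
    refine ⟨?_, ?_⟩
    · rw [wt_cons, ← wt_snoc, Fin.snoc_init_self]
      exact h1
    · simp only at h2 ⊢
      rw [← stat_rot w hw, Fin.snoc_init_self]
      exact h2
  · obtain ⟨π, h1, h2⟩ := π
    refine ⟨?_, ?_⟩
    · rw [wt_snoc, ← wt_cons, Fin.cons_self_tail]
      exact h1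
    · simp only at h2 ⊢
      rw [stat_rot w hw, Fin.cons_self_tail]
      exact h2
  · simp [Fin.tail_cons, Fin.snoc_init_self]
  · simp [Fin.init_snoc, Fin.cons_self_tail]

/-- **The link recurrence for symmetric pair interactions.**
1. For every `w` with `w (D, a, b) = w (1 - D, b, a)` and every `v ∈ {0,1}^n`,
   `L_{v0} = L_{1v} + q L_{0v}` for the link symmetric functions of the statistic
   `∑_{i<j} w (γ_j - γ_i, π_i, π_j)`.
2. Refinement for each level word: `G_{(γ, a+1)} = G_{(a, γ)}`.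
3. For every `m`, `L_{v0} = L_{1v} + q L_{0v}` for the link symmetric functions of the `m`-fold
   dinv. 4. The same refinement for the `m`-fold dinv.
5. The `1`-fold dinv is `dinv`, so 3. with `m = 1` is Bergeron's recurrence. -/
theorem result :
    (∀ w : ℤ → ℕ+ → ℕ+ → ℕ, (∀ D a b, w D a b = w (1 - D) b a) →
      (∀ (n : ℕ) (v : Fin n → Fin 2),
        L (fun _ => stat w) (Fin.snoc v 0 : Fin (n + 1) → Fin 2) =
          L (fun _ => stat w) (Fin.cons 1 v : Fin (n + 1) → Fin 2) +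
            q • L (fun _ => stat w) (Fin.cons 0 v : Fin (n + 1) → Fin 2)) ∧
      ∀ (n : ℕ) (γ : Fin n → ℕ) (a : ℕ),
        G (fun _ => stat w) (Fin.snoc γ (a + 1) : Fin (n + 1) → ℕ) =
          G (fun _ => stat w) (Fin.cons a γ : Fin (n + 1) → ℕ)) ∧
    (∀ m : ℕ,
      (∀ (n : ℕ) (v : Fin n → Fin 2),
        L (fun _ => dinvM m) (Fin.snoc v 0 : Fin (n + 1) → Fin 2) =
          L (fun _ => dinvM m) (Fin.cons 1 v : Fin (n + 1) → Fin 2) +
            q • L (fun _ => dinvM m) (Fin.cons 0 v : Fin (n + 1) → Fin 2)) ∧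
      ∀ (n : ℕ) (γ : Fin n → ℕ) (a : ℕ),
        G (fun _ => dinvM m) (Fin.snoc γ (a + 1) : Fin (n + 1) → ℕ) =
          G (fun _ => dinvM m) (Fin.cons a γ : Fin (n + 1) → ℕ)) ∧
    (∀ (n : ℕ) (γ : Fin n → ℕ) (π : Fin n → ℕ+), dinvM 1 γ π = dinv γ π) ∧
    (∀ (n : ℕ) (v : Fin n → Fin 2),
      L (fun _ => dinv) (Fin.snoc v 0 : Fin (n + 1) → Fin 2) =
        L (fun _ => dinv) (Fin.cons 1 v : Fin (n + 1) → Fin 2) +
          q • L (fun _ => dinv) (Fin.cons 0 v : Fin (n + 1) → Fin 2)) := by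
  have h1 : ∀ w : ℤ → ℕ+ → ℕ+ → ℕ, (∀ D a b, w D a b = w (1 - D) b a) →
      ∀ (n : ℕ) (v : Fin n → Fin 2),
        L (fun _ => stat w) (Fin.snoc v 0 : Fin (n + 1) → Fin 2) =
          L (fun _ => stat w) (Fin.cons 1 v : Fin (n + 1) → Fin 2) +
            q • L (fun _ => stat w) (Fin.cons 0 v : Fin (n + 1) → Fin 2) :=
    fun w hw n v => main _ (fun n p => stat_unrot w hw n p) n v
  have h2 : ∀ m : ℕ, (fun n : ℕ => (dinvM m : (Fin n → ℕ) → (Fin n → ℕ+) → ℕ)) =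
      fun n : ℕ => stat (wM m) := fun m => by
    funext n γ π
    exact dinvM_eq m γ π
  have h3 : (fun n : ℕ => (dinv : (Fin n → ℕ) → (Fin n → ℕ+) → ℕ)) =
      fun n : ℕ => dinvM 1 := by
    funext n γ π
    exact (dinvM_one γ π).symm
  refine ⟨fun w hw => ⟨h1 w hw, G_rot w hw⟩, fun m => ?_, fun n => dinvM_one, ?_⟩
  · rw [h2]
    exact ⟨h1 _ (wM_symm m), G_rot _ (wM_symm m)⟩
  · rw [h3, h2]
    exact h1 _ (wM_symm 1)

end Pool.Agent.Results.MP_c90a8c_co.FussLinkRecurrence
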